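import Pool.Agent.H73.NK.Targets

/-!
# Bad tuples are rare
-/

set_option autoImplicit false

namespace Pool.Agent.H19.NK.BD

open Finset Pool.Agent.H73.NK

theorem sum_le_of_inj {α β : Type*} [DecidableEq β] (S : Finset α) (T : Finset β) (f : α → β)
    (F : α → ℝ) (G : β → ℝ) (hf : ∀ a ∈ S, f a ∈ T)
    (hinj : ∀ a ∈ S, ∀ b ∈ S, f a = f b → a = b) (hFG : ∀ a ∈ S, F a ≤ G (f a))
    (hG : ∀ b ∈ T, 0 ≤ G b) : ∑ a ∈ S, F a ≤ ∑ b ∈ T, G b := by
  calc ∑ a ∈ S, F a ≤ ∑ a ∈ S, G (f a) := Finset.sum_le_sum hFG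
    _ = ∑ b ∈ S.image f, G b := by
      rw [Finset.sum_image]
      intro a ha b hb h
      exact hinj a ha b hb h
    _ ≤ ∑ b ∈ T, G b := by
      apply Finset.sum_le_sum_of_subset_of_nonneg
      · intro b hb
        obtain ⟨a, ha, rfl⟩ := Finset.mem_image.1 hb
        exact hf a ha
      · intro b hb _
        exact hG b hb

theorem sum_le_of_surj {α β : Type*} [DecidableEq β] [Nonempty β] (S : Finset α) (T : Finset β)
    (f : β → α) (F : α → ℝ) (hF : ∀ a, 0 ≤ F a) (hsurj : ∀ a ∈ S, ∃ b ∈ T, f b = a) :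
    ∑ a ∈ S, F a ≤ ∑ b ∈ T, F (f b) := by
  choose! g hg using hsurj
  apply sum_le_of_inj S T g
  · exact fun a ha => (hg a ha).1
  · intro a ha b hb h
    rw [← (hg a ha).2, ← (hg b hb).2, h]
  · intro a ha
    rw [(hg a ha).2]
  · exact fun b _ => hF _

theorem near (v N : ℕ) (d : ℝ) (hv : 1 ≤ v) (hd0 : 0 ≤ d) (hd : d ≤ 1 / 2) :
    ∑ u ∈ (Icc 1 N).filter (fun u : ℕ => u ≠ v ∧ |(v : ℝ) - u| ≤ d * u), (1 : ℝ) / u ≤
      6 * d := by
  have hv0 : (0 : ℝ) < v := by exact_mod_cast hv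
  set m : ℕ := ⌊2 * d * v⌋₊ with hm
  have hmle : (m : ℝ) ≤ 2 * d * v := Nat.floor_le (by positivity)
  set A := (Icc 1 N).filter (fun u : ℕ => u ≠ v ∧ |(v : ℝ) - u| ≤ d * u) with hA
  have hsub : A ⊆ (Icc (v - m) (v + m)).erase v := by
    intro u hu
    obtain ⟨hu1, hu2, hu3⟩ := Finset.mem_filter.1 hu
    have h1 := abs_le.1 hu3
    have hu0 : (0 : ℝ) ≤ u := Nat.cast_nonneg u
    have h2 : (u : ℝ) ≤ 2 * v := by nlinarith
    have h3 : d * u ≤ 2 * d * v := by nlinarith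
    rw [Finset.mem_erase, Finset.mem_Icc]
    refine ⟨hu2, ?_, ?_⟩
    · rcases le_or_gt v u with h | h
      · omega
      · have h4 : ((v - u : ℕ) : ℝ) ≤ 2 * d * v := by
          rw [Nat.cast_sub h.le]
          linarith
        have h5 : v - u ≤ m := Nat.le_floor h4
        omega
    · rcases le_or_gt u v with h | h
      · omega
      · have h4 : ((u - v : ℕ) : ℝ) ≤ 2 * d * v := by
          rw [Nat.cast_sub h.le]
          linarith
        have h5 : u - v ≤ m := Nat.le_floor h4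
        omega
  have hcard : A.card ≤ 2 * m := by
    refine (Finset.card_le_card hsub).trans ?_
    rw [Finset.card_erase_of_mem (by rw [Finset.mem_Icc]; omega), Nat.card_Icc]
    omega
  have hterm : ∀ u ∈ A, (1 : ℝ) / u ≤ 3 / 2 / v := by
    intro u hu
    obtain ⟨hu1, _, hu3⟩ := Finset.mem_filter.1 hu
    have h1 := abs_le.1 hu3
    have hu0 : (0 : ℝ) < u := by exact_mod_cast (Finset.mem_Icc.1 hu1).1
    rw [div_le_div_iff₀ hu0 hv0]
    nlinarith
  have hc : (A.card : ℝ) ≤ 2 * m := by exact_mod_cast hcard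
  calc ∑ u ∈ A, (1 : ℝ) / u ≤ ∑ _u ∈ A, 3 / 2 / (v : ℝ) := Finset.sum_le_sum hterm
    _ = A.card * (3 / 2 / (v : ℝ)) := by rw [Finset.sum_const, nsmul_eq_mul]
    _ ≤ (2 * (2 * d * v)) * (3 / 2 / (v : ℝ)) := by
      apply mul_le_mul_of_nonneg_right _ (by positivity)
      linarith
    _ = 6 * d := by field_simp; ring

theorem coreBad (E N : ℕ) (hE : 1 ≤ E) (S : Finset ℕ) (hS : S ⊆ Icc 1 N) (d L : ℝ)
    (hd0 : 0 ≤ d) (hd : d ≤ 1 / 2) (hL : ∑ g ∈ Icc 1 N, (1 : ℝ) / g ≤ L)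
    (P : ℕ → Prop) [DecidablePred P]
    (hP : ∀ x, P x → ∃ a : ℕ, a ∣ x * E ∧ a ≠ x ∧ |(a : ℝ) - x| ≤ d * x) :
    ∑ x ∈ S.filter P, (1 : ℝ) / x ≤ E.divisors.card * (L * (6 * d)) := by
  set T := (E.divisors ×ˢ (Icc 1 N ×ˢ Icc 1 N)).filter
    (fun p : ℕ × ℕ × ℕ => p.2.2 ≠ p.1 ∧ |(p.1 : ℝ) - p.2.2| ≤ d * p.2.2) with hT
  have h1 : ∑ x ∈ S.filter P, (1 : ℝ) / x ≤ ∑ p ∈ T, (1 : ℝ) / ((p.2.1 * p.2.2 : ℕ) : ℝ) := by
    apply sum_le_of_surj (S.filter P) T (fun p : ℕ × ℕ × ℕ => p.2.1 * p.2.2)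
      (fun x : ℕ => (1 : ℝ) / x) (fun x => by positivity)
    intro x hx
    obtain ⟨hxS, hxP⟩ := Finset.mem_filter.1 hx
    obtain ⟨hx1, hxN⟩ := Finset.mem_Icc.1 (hS hxS)
    obtain ⟨a, ha1, ha2, ha3⟩ := hP x hxP
    have hxE : 0 < x * E := Nat.mul_pos hx1 hE
    have ha0 : 0 < a := Nat.pos_of_dvd_of_pos ha1 hxE
    obtain ⟨g, v, u, hg, hcop, hav, hxu⟩ : ∃ g v u : ℕ, 0 < g ∧ v.Coprime u ∧ a = v * g ∧
        x = u * g := by
      obtain ⟨v, u, h1, h2, h3⟩ := Nat.exists_coprime a x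
      exact ⟨a.gcd x, v, u, Nat.gcd_pos_of_pos_left x ha0, h1, h2, h3⟩
    have hu0 : 0 < u := by
      rcases Nat.eq_zero_or_pos u with h | h
      · subst h; omega
      · exact h
    refine ⟨(v, g, u), ?_, by rw [hxu, mul_comm]⟩
    rw [hT, Finset.mem_filter, Finset.mem_product, Finset.mem_product, Nat.mem_divisors,
      Finset.mem_Icc, Finset.mem_Icc]
    have hg' : (0 : ℝ) < g := by exact_mod_cast hg
    refine ⟨⟨⟨?_, by omega⟩, ⟨hg, ?_⟩, ⟨hu0, ?_⟩⟩, ?_, ?_⟩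
    · have h2 : g * v ∣ g * (u * E) := by
        have h3 : g * (u * E) = x * E := by rw [hxu]; ring
        rw [h3, mul_comm g v, ← hav]
        exact ha1
      have h3 : v ∣ u * E := Nat.dvd_of_mul_dvd_mul_left hg h2
      exact hcop.dvd_of_dvd_mul_left h3
    · exact (Nat.le_of_dvd hx1 ⟨u, by rw [hxu, mul_comm]⟩).trans hxN
    · exact (Nat.le_of_dvd hx1 ⟨g, hxu⟩).trans hxN
    · intro h
      apply ha2
      have h' : u = v := h
      rw [hav, hxu, h']
    · have h4 : (a : ℝ) - x = g * (v - u) := by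
        rw [hav, hxu]; push_cast; ring
      rw [h4, abs_mul, abs_of_pos hg', hxu] at ha3
      push_cast at ha3
      have h5 : (g : ℝ) * |(v : ℝ) - u| ≤ g * (d * u) := by linarith
      exact le_of_mul_le_mul_left h5 hg'
  refine h1.trans ?_
  rw [hT, Finset.sum_filter, Finset.sum_product]
  have h2 : ∀ v ∈ E.divisors, ∑ p ∈ Icc 1 N ×ˢ Icc 1 N,
      (if p.2 ≠ v ∧ |(v : ℝ) - p.2| ≤ d * p.2 then (1 : ℝ) / ((p.1 * p.2 : ℕ) : ℝ) else 0) ≤
        L * (6 * d) := by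
    intro v hv
    have hv1 : 1 ≤ v := Nat.pos_of_mem_divisors hv
    rw [Finset.sum_product]
    have h3 : ∀ g ∈ Icc 1 N, ∑ u ∈ Icc 1 N,
        (if u ≠ v ∧ |(v : ℝ) - u| ≤ d * u then (1 : ℝ) / ((g * u : ℕ) : ℝ) else 0) ≤
          (1 / g) * (6 * d) := by
      intro g _
      rw [← Finset.sum_filter]
      have h4 : ∀ u ∈ (Icc 1 N).filter (fun u : ℕ => u ≠ v ∧ |(v : ℝ) - u| ≤ d * u),
          (1 : ℝ) / ((g * u : ℕ) : ℝ) = (1 / g) * (1 / u) := by
        intro u _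
        push_cast
        rw [one_div_mul_one_div]
      rw [Finset.sum_congr rfl h4, ← Finset.mul_sum]
      exact mul_le_mul_of_nonneg_left (near v N d hv1 hd0 hd) (by positivity)
    refine (Finset.sum_le_sum h3).trans ?_
    rw [← Finset.sum_mul]
    exact mul_le_mul_of_nonneg_right hL (by positivity)
  refine (Finset.sum_le_sum h2).trans ?_
  rw [Finset.sum_const, nsmul_eq_mul]

theorem card_div_mul (m n : ℕ) :
    (m * n).divisors.card ≤ m.divisors.card * n.divisors.card := by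
  rw [← Finset.card_product]
  apply Finset.card_le_card_of_surjOn (fun p : ℕ × ℕ => p.1 * p.2)
  intro k hk
  have hk' := Finset.mem_coe.1 hk
  rw [Nat.mem_divisors] at hk'
  obtain ⟨k1, k2, h1, h2, h3⟩ := (Nat.dvd_mul).1 hk'.1
  refine ⟨(k1, k2), ?_, h3⟩
  have hm : m ≠ 0 := fun h => hk'.2 (by rw [h, zero_mul])
  have hn : n ≠ 0 := fun h => hk'.2 (by rw [h, mul_zero])
  rw [Finset.mem_coe, Finset.mem_product, Nat.mem_divisors, Nat.mem_divisors]
  exact ⟨⟨h1, hm⟩, ⟨h2, hn⟩⟩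

theorem card_div_prod {ι : Type*} (s : Finset ι) (f : ι → ℕ) :
    (∏ i ∈ s, f i).divisors.card ≤ ∏ i ∈ s, (f i).divisors.card := by
  classical
  induction s using Finset.induction_on with
  | empty => simp
  | insert a s ha ih =>
    rw [Finset.prod_insert ha, Finset.prod_insert ha]
    exact (card_div_mul _ _).trans (Nat.mul_le_mul_left _ ih)

theorem tauSum (N : ℕ) (S : Finset ℕ) (hS : S ⊆ Icc 1 N) (L : ℝ) (hL0 : 0 ≤ L)
    (hL : ∑ g ∈ Icc 1 N, (1 : ℝ) / g ≤ L) :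
    ∑ a ∈ S, (a.divisors.card : ℝ) / a ≤ L * L := by
  have h1 : ∑ a ∈ S, (a.divisors.card : ℝ) / a =
      ∑ p ∈ (S ×ˢ Icc 1 N).filter (fun p : ℕ × ℕ => p.2 ∣ p.1), (1 : ℝ) / p.1 := by
    rw [Finset.sum_filter, Finset.sum_product]
    apply Finset.sum_congr rfl
    intro a ha
    obtain ⟨ha1, haN⟩ := Finset.mem_Icc.1 (hS ha)
    show _ = ∑ e ∈ Icc 1 N, if e ∣ a then (1 : ℝ) / a else 0
    rw [← Finset.sum_filter, Finset.sum_const, nsmul_eq_mul]
    have h2 : (Icc 1 N).filter (fun e => e ∣ a) = a.divisors := by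
      ext e
      rw [Finset.mem_filter, Finset.mem_Icc, Nat.mem_divisors]
      constructor
      · rintro ⟨_, h⟩
        exact ⟨h, by omega⟩
      · rintro ⟨h, _⟩
        exact ⟨⟨Nat.pos_of_dvd_of_pos h ha1, (Nat.le_of_dvd ha1 h).trans haN⟩, h⟩
    rw [h2]
    ring
  rw [h1]
  have h3 : ∑ p ∈ (S ×ˢ Icc 1 N).filter (fun p : ℕ × ℕ => p.2 ∣ p.1), (1 : ℝ) / p.1 ≤
      ∑ q ∈ Icc 1 N ×ˢ Icc 1 N, (1 : ℝ) / q.1 * (1 / q.2) := by
    apply sum_le_of_inj _ _ (fun p : ℕ × ℕ => (p.2, p.1 / p.2))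
    · intro p hp
      rw [Finset.mem_filter, Finset.mem_product] at hp
      obtain ⟨⟨hp1, hp2⟩, hp3⟩ := hp
      obtain ⟨ha1, haN⟩ := Finset.mem_Icc.1 (hS hp1)
      obtain ⟨he1, heN⟩ := Finset.mem_Icc.1 hp2
      rw [Finset.mem_product, Finset.mem_Icc, Finset.mem_Icc]
      refine ⟨⟨he1, heN⟩, Nat.div_pos (Nat.le_of_dvd ha1 hp3) he1, ?_⟩
      exact (Nat.div_le_self _ _).trans haN
    · intro p hp q hq h
      rw [Finset.mem_filter, Finset.mem_product] at hp hq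
      have e1 : p.2 = q.2 := congrArg Prod.fst h
      have e2 : p.1 / p.2 = q.1 / q.2 := congrArg Prod.snd h
      refine Prod.ext ?_ e1
      rw [← Nat.div_mul_cancel hp.2, ← Nat.div_mul_cancel hq.2, e2, e1]
    · intro p hp
      rw [Finset.mem_filter, Finset.mem_product] at hp
      obtain ⟨⟨hp1, hp2⟩, hp3⟩ := hp
      obtain ⟨he1, heN⟩ := Finset.mem_Icc.1 hp2
      show (1 : ℝ) / p.1 ≤ 1 / (p.2 : ℝ) * (1 / ((p.1 / p.2 : ℕ) : ℝ))
      rw [one_div_mul_one_div]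
      have h4 : (p.2 : ℝ) * ((p.1 / p.2 : ℕ) : ℝ) = p.1 := by
        exact_mod_cast Nat.mul_div_cancel' hp3
      rw [h4]
    · intro q _
      positivity
  refine h3.trans ?_
  have h5 : ∑ q ∈ Icc 1 N ×ˢ Icc 1 N, (1 : ℝ) / q.1 * (1 / q.2) =
      (∑ g ∈ Icc 1 N, (1 : ℝ) / g) * ∑ g ∈ Icc 1 N, (1 : ℝ) / g := by
    rw [Finset.sum_mul_sum, Finset.sum_product]
  rw [h5]
  exact mul_le_mul hL hL (Finset.sum_nonneg fun g _ => by positivity) hL0

theorem decomp {n : ℕ} (W : Fin (n + 1) → Finset ℕ) (j : Fin (n + 1))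
    (F : (Fin (n + 1) → ℕ) → ℝ) :
    ∑ t ∈ Fintype.piFinset W, F t =
      ∑ t' ∈ Fintype.piFinset (fun i => W (j.succAbove i)), ∑ x ∈ W j,
        F (Fin.insertNth (α := fun _ => ℕ) j x t') := by
  rw [← Finset.sum_product']
  apply Finset.sum_nbij' (fun t => (fun i => t (j.succAbove i), t j))
    (fun p => Fin.insertNth (α := fun _ => ℕ) j p.2 p.1)
  · intro t ht
    rw [Fintype.mem_piFinset] at ht
    rw [Finset.mem_product, Fintype.mem_piFinset]
    exact ⟨fun i => ht _, ht j⟩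
  · intro p hp
    rw [Finset.mem_product, Fintype.mem_piFinset] at hp
    rw [Fintype.mem_piFinset]
    intro i
    rcases Fin.eq_self_or_eq_succAbove j i with h | ⟨i', h⟩
    · subst h
      rw [Fin.insertNth_apply_same]
      exact hp.2
    · subst h
      rw [Fin.insertNth_apply_succAbove]
      exact hp.1 i'
  · intro t _
    exact Fin.insertNth_self_removeNth (α := fun _ => ℕ) j t
  · intro p _
    refine Prod.ext ?_ ?_
    · funext i
      simp
    · simp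
  · intro t _
    rw [show Fin.insertNth (α := fun _ => ℕ) j (t j) (fun i => t (j.succAbove i)) = t from
      Fin.insertNth_self_removeNth (α := fun _ => ℕ) j t]

theorem DT_insertNth {n : ℕ} (j : Fin (n + 1)) (x : ℕ) (t' : Fin n → ℕ) :
    DT (Fin.insertNth (α := fun _ => ℕ) j x t' : Fin (n + 1) → ℕ) = x * DT t' := by
  unfold DT
  rw [Fin.prod_univ_succAbove _ j, Fin.insertNth_apply_same]
  congr 1
  apply Finset.prod_congr rfl
  intro i _
  rw [Fin.insertNth_apply_succAbove]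

open Classical in
theorem oneJ {n : ℕ} (W : Fin (n + 1) → Finset ℕ) (N : ℕ) (hW : ∀ i, W i ⊆ Icc 1 N)
    (d L : ℝ) (hd0 : 0 ≤ d) (hd : d ≤ 1 / 2) (hL0 : 0 ≤ L)
    (hL : ∑ g ∈ Icc 1 N, (1 : ℝ) / g ≤ L) (j : Fin (n + 1)) :
    ∑ t ∈ (Fintype.piFinset W).filter (fun t => ∃ a : ℕ, a ∣ DT t ∧ a ≠ t j ∧
      |(a : ℝ) - t j| ≤ d * t j), (1 : ℝ) / DT t ≤ (L * (6 * d)) * (L * L) ^ n := by
  rw [Finset.sum_filter, decomp W j]
  have h1 : ∀ t' ∈ Fintype.piFinset (fun i => W (j.succAbove i)),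
      ∑ x ∈ W j, (if (∃ a : ℕ, a ∣ DT (Fin.insertNth (α := fun _ => ℕ) j x t') ∧
        a ≠ (Fin.insertNth (α := fun _ => ℕ) j x t' : Fin (n + 1) → ℕ) j ∧
        |(a : ℝ) - (Fin.insertNth (α := fun _ => ℕ) j x t' : Fin (n + 1) → ℕ) j| ≤
          d * (Fin.insertNth (α := fun _ => ℕ) j x t' : Fin (n + 1) → ℕ) j) then
        (1 : ℝ) / DT (Fin.insertNth (α := fun _ => ℕ) j x t') else 0) ≤
      (L * (6 * d)) * ∏ i, (((t' i).divisors.card : ℝ) / (t' i : ℕ)) := by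
    intro t' ht'
    rw [Fintype.mem_piFinset] at ht'
    have hE : 1 ≤ DT t' := by
      unfold DT
      apply Nat.one_le_iff_ne_zero.2
      rw [Finset.prod_ne_zero_iff]
      intro i _
      have := (Finset.mem_Icc.1 (hW _ (ht' i))).1
      omega
    simp only [DT_insertNth, Fin.insertNth_apply_same]
    have h2 := coreBad (DT t') N hE (W j) (hW j) d L hd0 hd hL
      (fun x => ∃ a : ℕ, a ∣ x * DT t' ∧ a ≠ x ∧ |(a : ℝ) - x| ≤ d * x) (fun x h => h)
    rw [← Finset.sum_filter]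
    have hE0 : (0 : ℝ) < DT t' := by exact_mod_cast hE
    have h3 : ∀ x ∈ (W j).filter (fun x : ℕ => ∃ a : ℕ, a ∣ x * DT t' ∧ a ≠ x ∧
        |(a : ℝ) - x| ≤ d * x), (1 : ℝ) / ((x * DT t' : ℕ) : ℝ) = (1 / x) * (1 / DT t') := by
      intro x _
      push_cast
      rw [one_div_mul_one_div]
    rw [Finset.sum_congr rfl h3, ← Finset.sum_mul]
    have h4 : (((DT t').divisors.card : ℝ)) ≤ ∏ i, ((t' i).divisors.card : ℝ) := by
      have h5 := card_div_prod Finset.univ t'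
      calc (((DT t').divisors.card : ℝ)) ≤ ((∏ i, (t' i).divisors.card : ℕ) : ℝ) := by
            exact_mod_cast h5
        _ = _ := by push_cast; rfl
    have h6 : ∏ i, (((t' i).divisors.card : ℝ) / (t' i : ℕ)) =
        (∏ i, ((t' i).divisors.card : ℝ)) * (1 / DT t') := by
      rw [Finset.prod_div_distrib]
      unfold DT
      push_cast
      ring
    rw [h6]
    calc (∑ x ∈ (W j).filter (fun x : ℕ => ∃ a : ℕ, a ∣ x * DT t' ∧ a ≠ x ∧
          |(a : ℝ) - x| ≤ d * x), (1 : ℝ) / x) * (1 / (DT t' : ℝ))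
        ≤ ((DT t').divisors.card * (L * (6 * d))) * (1 / (DT t' : ℝ)) :=
          mul_le_mul_of_nonneg_right h2 (by positivity)
      _ ≤ ((∏ i, ((t' i).divisors.card : ℝ)) * (L * (6 * d))) * (1 / (DT t' : ℝ)) := by
          apply mul_le_mul_of_nonneg_right _ (by positivity)
          exact mul_le_mul_of_nonneg_right h4 (by positivity)
      _ = _ := by ring
  refine (Finset.sum_le_sum h1).trans ?_
  rw [← Finset.mul_sum]
  apply mul_le_mul_of_nonneg_left _ (by positivity)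
  rw [← Finset.prod_univ_sum (fun i => W (j.succAbove i))
    (fun _ a => ((a.divisors.card : ℝ)) / (a : ℕ))]
  calc ∏ i : Fin n, ∑ a ∈ W (j.succAbove i), ((a.divisors.card : ℝ)) / (a : ℕ)
      ≤ ∏ _i : Fin n, (L * L) := by
        apply Finset.prod_le_prod
        · intro i _
          exact Finset.sum_nonneg fun a _ => by positivity
        · intro i _
          exact tauSum N _ (hW _) L hL0 hL
    _ = (L * L) ^ n := by simp

theorem bd : T_BD := by
  classical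
  intro s z l H h hl hH
  rcases s with _ | n
  · have h1 : BT z l h = ∅ := by
      unfold BT
      rw [Finset.filter_eq_empty_iff]
      rintro t _ ⟨j, _⟩
      exact j.elim0
    rw [h1]
    simp
  · have hH1 : 1 ≤ H := by
      have h1 := hH 0
      have h2 : (0 : ℝ) ≤ h 0 := Nat.cast_nonneg _
      linarith
    have hHl : 0 ≤ H * l := by positivity
    set N : ℕ := ⌊Real.exp (H * l)⌋₊ with hN
    have hN1 : 1 ≤ N := Nat.le_floor (by rw [Nat.cast_one]; exact Real.one_le_exp hHl)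
    have hNle : (N : ℝ) ≤ Real.exp (H * l) := Nat.floor_le (Real.exp_pos _).le
    have hL : ∑ g ∈ Icc 1 N, (1 : ℝ) / g ≤ 1 + H * l := by
      have h1 := harmonic_le_one_add_log N
      rw [harmonic_eq_sum_Icc, Rat.cast_sum] at h1
      simp_rw [Rat.cast_inv, Rat.cast_natCast] at h1
      have h2 : Real.log N ≤ H * l := by
        rw [← Real.log_exp (H * l)]
        apply Real.log_le_log _ hNle
        exact_mod_cast hN1
      simp only [one_div]
      linarith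
    have hW : ∀ i, VW z l (h i) ⊆ Icc 1 N := by
      intro i a ha
      unfold VW at ha
      rw [Finset.mem_filter, Finset.mem_range, Nat.lt_ceil] at ha
      obtain ⟨h1, h2, _⟩ := ha
      rw [Finset.mem_Icc]
      constructor
      · have h3 : (0 : ℝ) < a := (Real.exp_pos _).trans_le h2
        exact_mod_cast h3
      · apply Nat.le_floor
        refine h1.le.trans (Real.exp_le_exp.2 ?_)
        exact mul_le_mul_of_nonneg_right (hH i) (by linarith)
    have hd0 : 0 ≤ 2 * Real.exp (-l) := by positivity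
    have hd : 2 * Real.exp (-l) ≤ 1 / 2 := by
      have h1 : Real.exp (-l) ≤ Real.exp (-2) := Real.exp_le_exp.2 (by linarith)
      have h2 : Real.exp (-2) = (Real.exp 1)⁻¹ ^ 2 := by
        rw [← Real.exp_neg, ← Real.exp_nat_mul]
        norm_num
      have h3 : (Real.exp 1)⁻¹ ≤ 1 / 2 := by
        rw [inv_le_comm₀ (Real.exp_pos 1) (by norm_num)]
        linarith [Real.exp_one_gt_d9]
      have h4 : 0 ≤ (Real.exp 1)⁻¹ := by positivity
      nlinarith
    have hstep : ∑ t ∈ BT z l h, (1 : ℝ) / DT t ≤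
        ∑ j : Fin (n + 1), ∑ t ∈ (Fintype.piFinset fun i => VW z l (h i)).filter
          (fun t => ∃ a : ℕ, a ∣ DT t ∧ a ≠ t j ∧
            |(a : ℝ) - t j| ≤ (2 * Real.exp (-l)) * t j), (1 : ℝ) / DT t := by
      simp only [Finset.sum_filter]
      rw [Finset.sum_comm]
      unfold BT TT
      rw [Finset.sum_filter]
      apply Finset.sum_le_sum
      intro t _
      split_ifs with hex
      · obtain ⟨j, hj⟩ := hex
        have h5 : (1 : ℝ) / DT t = if (∃ a : ℕ, a ∣ DT t ∧ a ≠ t j ∧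
            |(a : ℝ) - t j| ≤ (2 * Real.exp (-l)) * t j) then (1 : ℝ) / DT t else 0 := by
          rw [if_pos hj]
        refine h5.le.trans (Finset.single_le_sum (f := fun j => if (∃ a : ℕ, a ∣ DT t ∧
          a ≠ t j ∧ |(a : ℝ) - t j| ≤ (2 * Real.exp (-l)) * t j) then (1 : ℝ) / DT t else 0)
          (fun i _ => ?_) (Finset.mem_univ j))
        split_ifs <;> positivity
      · exact Finset.sum_nonneg fun i _ => by split_ifs <;> positivity
    refine hstep.trans ?_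
    have hj : ∀ j : Fin (n + 1), ∑ t ∈ (Fintype.piFinset fun i => VW z l (h i)).filter
          (fun t => ∃ a : ℕ, a ∣ DT t ∧ a ≠ t j ∧
            |(a : ℝ) - t j| ≤ (2 * Real.exp (-l)) * t j), (1 : ℝ) / DT t ≤
        ((1 + H * l) * (6 * (2 * Real.exp (-l)))) * ((1 + H * l) * (1 + H * l)) ^ n :=
      fun j => oneJ (fun i => VW z l (h i)) N hW _ _ hd0 hd (by positivity) hL j
    refine (Finset.sum_le_sum fun j _ => hj j).trans ?_
    rw [Finset.sum_const, Finset.card_univ, Fintype.card_fin, nsmul_eq_mul]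
    have hA : 1 ≤ 1 + H * l := by linarith
    set A : ℝ := 1 + H * l with hAdef
    have hA0 : 0 ≤ A := by linarith
    have e1 : A ^ (2 * (n + 1)) = (A * A) ^ n * (A * A) := by
      rw [pow_mul, pow_two, pow_succ]
    rw [e1]
    have hexp : 0 < Real.exp (-l) := Real.exp_pos _
    have hp : 0 ≤ (A * A) ^ n := by positivity
    have hn0 : (0 : ℝ) ≤ ((n + 1 : ℕ) : ℝ) := Nat.cast_nonneg _
    have e2 : ((n + 1 : ℕ) : ℝ) * (A * (6 * (2 * Real.exp (-l))) * (A * A) ^ n) =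
        (((n + 1 : ℕ) : ℝ) * Real.exp (-l) * (A * A) ^ n) * (12 * A) := by ring
    have e3 : 16 * ((n + 1 : ℕ) : ℝ) * Real.exp (-l) * ((A * A) ^ n * (A * A)) =
        (((n + 1 : ℕ) : ℝ) * Real.exp (-l) * (A * A) ^ n) * (16 * (A * A)) := by ring
    rw [e2, e3]
    apply mul_le_mul_of_nonneg_left _ (by positivity)
    nlinarith

end Pool.Agent.H19.NK.BD
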