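import Pool.Agent.H73.NK.Targets
import Pool.Agent.H74.GF.SIEVE

/-!
# Large sieve for products of primes from disjoint blocks
-/

set_option autoImplicit false

namespace Pool.Agent.H19.NK.LV

open Finset Pool.Agent.H27.LS
open Pool.Agent.H74.GF (TS trig_ind geom)

theorem pars (S : Finset ℕ) (q : ℕ) (hq : 0 < q) (x : ℝ) :
    ∑ j ∈ range q, ‖TS S (x + (j : ℝ) / q)‖ ^ 2 =
      q * ∑ c ∈ range q, ‖∑ n ∈ S.filter (fun n => n % q = c),
        Complex.exp (2 * Real.pi * Complex.I * n * x)‖ ^ 2 := by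
  have h1 : ∀ z : ℂ, ((‖z‖ ^ 2 : ℝ) : ℂ) = z * (starRingEnd ℂ) z := fun z => by
    rw [Complex.mul_conj, Complex.normSq_eq_norm_sq]
  set w : ℕ → ℂ := fun n => Complex.exp (2 * Real.pi * Complex.I * n * x) with hw
  have hT : ∀ j : ℕ, TS S (x + (j : ℝ) / q) = ∑ n ∈ S, w n *
      Complex.exp (2 * Real.pi * Complex.I * n * ((j : ℝ) / q : ℝ)) := by
    intro j
    unfold TS
    apply Finset.sum_congr rfl
    intro n _
    rw [hw]
    dsimp only
    rw [← Complex.exp_add]
    congr 1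
    push_cast
    ring
  have hL : ((∑ j ∈ range q, ‖TS S (x + (j : ℝ) / q)‖ ^ 2 : ℝ) : ℂ) =
      ∑ m ∈ S, ∑ n ∈ S, w m * (starRingEnd ℂ) (w n) * (if m % q = n % q then (q : ℂ) else 0) := by
    rw [Complex.ofReal_sum]
    simp only [h1, hT, map_sum, Finset.sum_mul_sum, map_mul]
    rw [Finset.sum_comm]
    apply Finset.sum_congr rfl
    intro m _
    rw [Finset.sum_comm]
    apply Finset.sum_congr rfl
    intro n _
    have h2 := geom q hq m n
    have h2' : ∑ j ∈ range q,
        Complex.exp (2 * Real.pi * Complex.I * m * ((j : ℝ) / q : ℝ)) *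
          (starRingEnd ℂ) (Complex.exp (2 * Real.pi * Complex.I * n * ((j : ℝ) / q : ℝ))) =
        if m % q = n % q then (q : ℂ) else 0 := by
      rw [h2]
      by_cases h : m % q = n % q
      · rw [if_pos h, if_pos ((ZMod.natCast_eq_natCast_iff' m n q).2 h)]
      · rw [if_neg h, if_neg (fun e => h ((ZMod.natCast_eq_natCast_iff' m n q).1 e))]
    rw [← h2', Finset.mul_sum]
    apply Finset.sum_congr rfl
    intro j _
    ring
  have hR : ((q * ∑ c ∈ range q, ‖∑ n ∈ S.filter (fun n => n % q = c), w n‖ ^ 2 : ℝ) : ℂ) =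
      ∑ m ∈ S, ∑ n ∈ S, w m * (starRingEnd ℂ) (w n) * (if m % q = n % q then (q : ℂ) else 0) := by
    rw [Complex.ofReal_mul, Complex.ofReal_sum, Complex.ofReal_natCast]
    simp only [h1, map_sum, Finset.sum_mul_sum]
    rw [Finset.mul_sum]
    have h3 : ∀ c ∈ range q, (q : ℂ) * ∑ m ∈ S.filter (fun n => n % q = c),
        ∑ n ∈ S.filter (fun n => n % q = c), w m * (starRingEnd ℂ) (w n) =
        ∑ m ∈ S, ∑ n ∈ S, if m % q = c then (if n % q = c then
          w m * (starRingEnd ℂ) (w n) * q else 0) else 0 := by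
      intro c _
      rw [Finset.mul_sum, Finset.sum_filter]
      apply Finset.sum_congr rfl
      intro m _
      split_ifs with h
      · rw [Finset.mul_sum, Finset.sum_filter]
        apply Finset.sum_congr rfl
        intro n _
        split_ifs
        · ring
        · rfl
      · simp
    rw [Finset.sum_congr rfl h3, Finset.sum_comm]
    apply Finset.sum_congr rfl
    intro m _
    rw [Finset.sum_comm]
    apply Finset.sum_congr rfl
    intro n _
    rw [Finset.sum_ite_eq (range q) (m % q) (fun c => if n % q = c then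
          w m * (starRingEnd ℂ) (w n) * q else 0),
      if_pos (Finset.mem_range.2 (Nat.mod_lt m hq))]
    by_cases h : m % q = n % q
    · rw [if_pos h, if_pos h.symm]
    · rw [if_neg h, if_neg (fun e => h e.symm), mul_zero]
  have := hL.trans hR.symm
  exact_mod_cast this

theorem split (S : Finset ℕ) (q : ℕ) (Z : Finset ℕ) (hZ : ∀ n ∈ S, n % q ∉ Z)
    (hq : 0 < q) (f : ℕ → ℂ) :
    ∑ n ∈ S, f n = ∑ c ∈ range q \ Z, ∑ n ∈ S.filter (fun n => n % q = c), f n := by
  rw [← Finset.sum_fiberwise_of_maps_to (s := S) (t := range q \ Z) (g := fun n => n % q)]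
  intro n hn
  rw [Finset.mem_sdiff, Finset.mem_range]
  exact ⟨Nat.mod_lt n hq, hZ n hn⟩

theorem local_lb (S : Finset ℕ) (q : ℕ) (hq : 0 < q) (Z : Finset ℕ) (hZq : Z ⊆ range q)
    (hZ : ∀ n ∈ S, n % q ∉ Z) (x : ℝ) :
    ((Z.card : ℝ) / q) * ‖TS S x‖ ^ 2 ≤ ∑ j ∈ Ico 1 q, ‖TS S (x + (j : ℝ) / q)‖ ^ 2 := by
  set A : ℝ := ∑ c ∈ range q, ‖∑ n ∈ S.filter (fun n => n % q = c),
        Complex.exp (2 * Real.pi * Complex.I * n * x)‖ ^ 2 with hA
  have h1 := pars S q hq x
  rw [Finset.range_eq_Ico, Finset.sum_eq_sum_Ico_succ_bot hq] at h1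
  simp only [Nat.cast_zero, zero_div, add_zero, zero_add] at h1
  rw [← Finset.range_eq_Ico, ← hA] at h1
  have hq' : (0 : ℝ) < q := by exact_mod_cast hq
  have hcard : ((range q \ Z).card : ℝ) = q - Z.card := by
    rw [Finset.card_sdiff_of_subset hZq, Finset.card_range, Nat.cast_sub]
    have := Finset.card_le_card hZq
    rwa [Finset.card_range] at this
  have h2 : ‖TS S x‖ ^ 2 ≤ (q - Z.card) * A := by
    have h3 : TS S x = ∑ c ∈ range q \ Z, ∑ n ∈ S.filter (fun n => n % q = c),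
        Complex.exp (2 * Real.pi * Complex.I * n * x) := by
      unfold TS
      exact split S q Z hZ hq _
    have h4 : ‖TS S x‖ ^ 2 ≤ (∑ c ∈ range q \ Z, ‖∑ n ∈ S.filter (fun n => n % q = c),
        Complex.exp (2 * Real.pi * Complex.I * n * x)‖) ^ 2 := by
      rw [h3]
      exact pow_le_pow_left₀ (norm_nonneg _) (norm_sum_le _ _) 2
    refine h4.trans ((sq_sum_le_card_mul_sum_sq).trans ?_)
    rw [hcard]
    have h5 : (0 : ℝ) ≤ q - Z.card := by
      rw [← hcard]; exact Nat.cast_nonneg _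
    apply mul_le_mul_of_nonneg_left _ h5
    rw [hA]
    exact Finset.sum_le_sum_of_subset_of_nonneg Finset.sdiff_subset (fun _ _ _ => by positivity)
  have hA0 : 0 ≤ A := Finset.sum_nonneg fun _ _ => by positivity
  have hZ0 : (0 : ℝ) ≤ Z.card := Nat.cast_nonneg _
  set T : ℝ := ‖TS S x‖ ^ 2 with hT
  have h6 : (Z.card : ℝ) / q * T ≤ q * A - T := by
    rw [div_mul_eq_mul_div, div_le_iff₀ hq']
    nlinarith [mul_nonneg hA0 (mul_nonneg hZ0 hZ0), mul_le_mul_of_nonneg_left h2 (add_nonneg hZ0 hq'.le)]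
  linarith

theorem decompC {α : Type*} {n : ℕ} (W : Fin (n + 1) → Finset α)
    (F : (Fin (n + 1) → α) → ℝ) :
    ∑ t ∈ Fintype.piFinset W, F t =
      ∑ x ∈ W 0, ∑ t' ∈ Fintype.piFinset (fun i : Fin n => W i.succ),
        F (Fin.cons (α := fun _ => α) x t') := by
  rw [← Finset.sum_product']
  apply Finset.sum_nbij' (fun t => (t 0, fun i => t (Fin.succ i)))
    (fun p => Fin.cons (α := fun _ => α) p.1 p.2)
  · intro t ht
    rw [Fintype.mem_piFinset] at ht
    rw [Finset.mem_product, Fintype.mem_piFinset]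
    exact ⟨ht 0, fun i => ht _⟩
  · intro p hp
    rw [Finset.mem_product, Fintype.mem_piFinset] at hp
    rw [Fintype.mem_piFinset]
    intro i
    refine Fin.cases ?_ (fun i' => ?_) i
    · exact hp.1
    · exact hp.2 i'
  · intro t _
    exact Fin.cons_self_tail (α := fun _ => α) t
  · intro p _
    rfl
  · intro t _
    rw [show Fin.cons (α := fun _ => α) (t 0) (fun i => t (Fin.succ i)) = t from
      Fin.cons_self_tail (α := fun _ => α) t]

theorem lower (S : Finset ℕ) (Z : ℕ → Finset ℕ) : ∀ (m : ℕ) (P : Fin m → Finset ℕ),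
    (∀ i, ∀ q ∈ P i, 0 < q ∧ Z q ⊆ range q ∧ ∀ n ∈ S, n % q ∉ Z q) → ∀ x : ℝ,
    (∏ i, ∑ q ∈ P i, ((Z q).card : ℝ) / q) * ‖TS S x‖ ^ 2 ≤
      ∑ t ∈ Fintype.piFinset (fun i => (P i).sigma fun q => Ico 1 q),
        ‖TS S (x + ∑ i, ((t i).2 : ℝ) / (t i).1)‖ ^ 2 := by
  intro m
  induction m with
  | zero =>
    intro P _ x
    simp
  | succ m ih =>
    intro P hP x
    rw [decompC, Fin.prod_univ_succ]
    have h1 : ∀ b ∈ (P 0).sigma (fun q => Ico 1 q),
        (∏ i : Fin m, ∑ q ∈ P i.succ, ((Z q).card : ℝ) / q) * ‖TS S (x + (b.2 : ℝ) / b.1)‖ ^ 2 ≤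
        ∑ t' ∈ Fintype.piFinset (fun i : Fin m => (P i.succ).sigma fun q => Ico 1 q),
          ‖TS S (x + ∑ i, (((Fin.cons b t' : Fin (m + 1) → (Σ _ : ℕ, ℕ)) i).2 : ℝ) /
            ((Fin.cons b t' : Fin (m + 1) → (Σ _ : ℕ, ℕ)) i).1)‖ ^ 2 := by
      intro b _
      have h2 := ih (fun i => P i.succ) (fun i => hP i.succ) (x + (b.2 : ℝ) / b.1)
      refine h2.trans (le_of_eq ?_)
      apply Finset.sum_congr rfl
      intro t' _
      rw [Fin.sum_univ_succ]
      simp only [Fin.cons_zero, Fin.cons_succ]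
      rw [add_assoc]
    refine le_trans ?_ (Finset.sum_le_sum h1)
    rw [← Finset.mul_sum, Finset.sum_sigma]
    have h3 : (∑ q ∈ P 0, ((Z q).card : ℝ) / q) * ‖TS S x‖ ^ 2 ≤
        ∑ q ∈ P 0, ∑ j ∈ Ico 1 q, ‖TS S (x + (j : ℝ) / q)‖ ^ 2 := by
      rw [Finset.sum_mul]
      apply Finset.sum_le_sum
      intro q hq
      obtain ⟨h4, h5, h6⟩ := hP 0 q hq
      exact local_lb S q h4 (Z q) h5 h6 x
    have h7 : 0 ≤ ∏ i : Fin m, ∑ q ∈ P i.succ, ((Z q).card : ℝ) / q :=
      Finset.prod_nonneg fun i _ => Finset.sum_nonneg fun q _ => by positivity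
    calc (∑ q ∈ P 0, ((Z q).card : ℝ) / q) *
          (∏ i : Fin m, ∑ q ∈ P i.succ, ((Z q).card : ℝ) / q) * ‖TS S x‖ ^ 2
        = (∏ i : Fin m, ∑ q ∈ P i.succ, ((Z q).card : ℝ) / q) *
          ((∑ q ∈ P 0, ((Z q).card : ℝ) / q) * ‖TS S x‖ ^ 2) := by ring
      _ ≤ _ := mul_le_mul_of_nonneg_left h3 h7

theorem TS_int (S : Finset ℕ) (x : ℝ) (k : ℤ) : TS S (x + k) = TS S x := by
  unfold TS
  apply Finset.sum_congr rfl
  intro n _
  have h1 : 2 * Real.pi * Complex.I * n * ((x + k : ℝ) : ℂ) =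
      2 * Real.pi * Complex.I * n * x + ((n * k : ℤ) : ℂ) * (2 * Real.pi * Complex.I) := by
    push_cast
    ring
  rw [h1, Complex.exp_add, Complex.exp_int_mul_two_pi_mul_I, mul_one]

theorem norm_sum_le_one {ι : Type*} (p : ℕ) [hp : Fact p.Prime] (s : Finset ι) (f : ι → ℚ)
    (hf : ∀ i ∈ s, padicNorm p (f i) ≤ 1) : padicNorm p (∑ i ∈ s, f i) ≤ 1 := by
  classical
  induction s using Finset.induction_on with
  | empty => simp
  | insert a s ha ih =>
    rw [Finset.sum_insert ha]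
    refine (padicNorm.nonarchimedean).trans (max_le (hf a (Finset.mem_insert_self _ _)) (ih ?_))
    exact fun i hi => hf i (Finset.mem_insert_of_mem hi)

theorem norm_frac (p : ℕ) [hp : Fact p.Prime] (a : ℤ) (q : ℕ) (hq : q.Prime) (hne : q ≠ p) :
    padicNorm p ((a : ℚ) / q) ≤ 1 := by
  rw [padicNorm.div]
  have h1 : padicNorm p (q : ℚ) = 1 := by
    rw [padicNorm.nat_eq_one_iff]
    intro h
    exact hne ((Nat.prime_dvd_prime_iff_eq hp.out hq).1 h).symm
  rw [h1, div_one]
  exact padicNorm.of_int a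

theorem not_unit (p : ℕ) [hp : Fact p.Prime] (a : ℤ) (h : padicNorm p ((a : ℚ) / p) ≤ 1) :
    (p : ℤ) ∣ a := by
  rw [padicNorm.div, padicNorm.padicNorm_p_of_prime] at h
  have hp0 : (0 : ℚ) < p := by exact_mod_cast hp.out.pos
  rw [div_inv_eq_mul] at h
  have h2 : padicNorm p (a : ℚ) ≤ (p : ℚ)⁻¹ := by
    rw [inv_eq_one_div, le_div_iff₀ hp0]
    exact h
  have h3 := (padicNorm.dvd_iff_norm_le (p := p) (n := 1) (z := a)).2 (by
    rw [Nat.cast_one, zpow_neg, zpow_one]
    exact h2)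
  rwa [pow_one] at h3

section
variable {m : ℕ}

/-- the sum of the fractions -/
def rho (t : Fin m → (Σ _ : ℕ, ℕ)) : ℚ := ∑ i, ((t i).2 : ℚ) / (t i).1

theorem rho_den (t : Fin m → (Σ _ : ℕ, ℕ)) (ht : ∀ i, (t i).1 ≠ 0) :
    ∃ z : ℤ, ((∏ i, (t i).1 : ℕ) : ℚ) * rho t = z := by
  classical
  refine ⟨∑ i, ((t i).2 : ℤ) * ((∏ j ∈ Finset.univ.erase i, (t j).1 : ℕ) : ℤ), ?_⟩
  unfold rho
  rw [Finset.mul_sum]
  push_cast
  apply Finset.sum_congr rfl
  intro i _
  rw [← Finset.mul_prod_erase Finset.univ (fun j => ((t j).1 : ℚ)) (Finset.mem_univ i)]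
  have h1 : ((t i).1 : ℚ) ≠ 0 := by exact_mod_cast ht i
  field_simp

theorem rho_inj (t t' : Fin m → (Σ _ : ℕ, ℕ)) (ht : ∀ i, (t i).1.Prime)
    (ht' : ∀ i, (t' i).1.Prime) (h1 : ∀ i, 1 ≤ (t i).2 ∧ (t i).2 < (t i).1)
    (h1' : ∀ i, 1 ≤ (t' i).2 ∧ (t' i).2 < (t' i).1)
    (hd : ∀ i j, i ≠ j → (t i).1 ≠ (t j).1) (hd' : ∀ i j, i ≠ j → (t i).1 ≠ (t' j).1)
    (k : ℤ) (hk : rho t - rho t' = k) : t = t' := by
  classical
  have hq : ∀ i, (t i).1 = (t' i).1 := by
    intro i
    by_contra hne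
    have hp : Fact (t i).1.Prime := ⟨ht i⟩
    have h2 : (((t i).2 : ℤ) : ℚ) / (t i).1 = k + rho t' -
        ∑ j ∈ Finset.univ.erase i, (((t j).2 : ℤ) : ℚ) / (t j).1 := by
      rw [← hk]
      unfold rho
      rw [← Finset.add_sum_erase Finset.univ (fun j => ((t j).2 : ℚ) / (t j).1)
        (Finset.mem_univ i)]
      push_cast
      ring
    have h3 : padicNorm (t i).1 ((((t i).2 : ℤ) : ℚ) / (t i).1) ≤ 1 := by
      rw [h2]
      refine (padicNorm.sub).trans (max_le ?_ ?_)
      · refine (padicNorm.nonarchimedean).trans (max_le (padicNorm.of_int k) ?_)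
        unfold rho
        apply norm_sum_le_one
        intro j _
        have hne2 : (t' j).1 ≠ (t i).1 := by
          by_cases hij : i = j
          · subst hij; exact fun e => hne e.symm
          · exact fun e => hd' i j hij e.symm
        exact norm_frac (t i).1 ((t' j).2 : ℤ) (t' j).1 (ht' j) hne2
      · apply norm_sum_le_one
        intro j hj
        exact norm_frac (t i).1 ((t j).2 : ℤ) (t j).1 (ht j)
          (hd j i (Finset.ne_of_mem_erase hj))
    have h4 := not_unit (t i).1 ((t i).2 : ℤ) h3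
    have h5 : (t i).1 ∣ (t i).2 := by exact_mod_cast h4
    have h6 := Nat.le_of_dvd (h1 i).1 h5
    have h7 := (h1 i).2
    omega
  funext i
  have hp : Fact (t i).1.Prime := ⟨ht i⟩
  have h2 : (((t i).2 - (t' i).2 : ℤ) : ℚ) / (t i).1 = k -
      ∑ j ∈ Finset.univ.erase i, (((t j).2 - (t' j).2 : ℤ) : ℚ) / (t j).1 := by
    rw [← hk]
    unfold rho
    rw [← Finset.add_sum_erase Finset.univ (fun j => ((t j).2 : ℚ) / (t j).1)
        (Finset.mem_univ i),
      ← Finset.add_sum_erase Finset.univ (fun j => ((t' j).2 : ℚ) / (t' j).1)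
        (Finset.mem_univ i)]
    have h8 : ∑ j ∈ Finset.univ.erase i, (((t j).2 - (t' j).2 : ℤ) : ℚ) / (t j).1 =
        ∑ j ∈ Finset.univ.erase i, ((t j).2 : ℚ) / (t j).1 -
          ∑ j ∈ Finset.univ.erase i, ((t' j).2 : ℚ) / (t' j).1 := by
      rw [← Finset.sum_sub_distrib]
      apply Finset.sum_congr rfl
      intro j _
      rw [← hq j]
      push_cast
      ring
    rw [h8, ← hq i]
    push_cast
    ring
  have h3 : padicNorm (t i).1 ((((t i).2 - (t' i).2 : ℤ) : ℚ) / (t i).1) ≤ 1 := by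
    rw [h2]
    refine (padicNorm.sub).trans (max_le (padicNorm.of_int k) ?_)
    apply norm_sum_le_one
    intro j hj
    exact norm_frac (t i).1 _ (t j).1 (ht j) (hd j i (Finset.ne_of_mem_erase hj))
  have h4 := not_unit (t i).1 _ h3
  have h5 := Int.eq_zero_of_abs_lt_dvd h4 (by
    have h6 := h1 i
    have h7 := h1' i
    rw [← hq i] at h7
    rw [abs_lt]
    constructor <;> omega)
  have h8 : (t i).2 = (t' i).2 := by omega
  exact Sigma.ext (hq i) (heq_of_eq h8)

theorem rho_not_int (t : Fin m → (Σ _ : ℕ, ℕ)) (hm : 0 < m) (ht : ∀ i, (t i).1.Prime)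
    (h1 : ∀ i, 1 ≤ (t i).2 ∧ (t i).2 < (t i).1)
    (hd : ∀ i j, i ≠ j → (t i).1 ≠ (t j).1) (k : ℤ) : rho t ≠ k := by
  classical
  intro hk
  let i : Fin m := ⟨0, hm⟩
  have hp : Fact (t i).1.Prime := ⟨ht i⟩
  have h2 : (((t i).2 : ℤ) : ℚ) / (t i).1 = k -
      ∑ j ∈ Finset.univ.erase i, (((t j).2 : ℤ) : ℚ) / (t j).1 := by
    rw [← hk]
    unfold rho
    rw [← Finset.add_sum_erase Finset.univ (fun j => ((t j).2 : ℚ) / (t j).1)
      (Finset.mem_univ i)]
    push_cast
    ring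
  have h3 : padicNorm (t i).1 ((((t i).2 : ℤ) : ℚ) / (t i).1) ≤ 1 := by
    rw [h2]
    refine (padicNorm.sub).trans (max_le (padicNorm.of_int k) ?_)
    apply norm_sum_le_one
    intro j hj
    exact norm_frac (t i).1 ((t j).2 : ℤ) (t j).1 (ht j) (hd j i (Finset.ne_of_mem_erase hj))
  have h4 := not_unit (t i).1 ((t i).2 : ℤ) h3
  have h5 : (t i).1 ∣ (t i).2 := by exact_mod_cast h4
  have h6 := Nat.le_of_dvd (h1 i).1 h5
  have h7 := (h1 i).2
  omega

end

theorem lv : Pool.Agent.H73.NK.T_LV := by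
  refine ⟨4 * Real.pi, by positivity, fun N m Q P Z S hN hQ hP hdis hS hZ => ?_⟩
  classical
  have hpi : (1 : ℝ) ≤ 4 * Real.pi := by
    have := Real.pi_gt_three
    linarith
  have hQ0 : (0 : ℝ) < Q := by linarith
  have hScard : (S.card : ℝ) ≤ N := by
    have h1 := Finset.card_le_card hS
    rw [Finset.card_range] at h1
    exact_mod_cast h1
  rcases Nat.eq_zero_or_pos m with hm | hm
  · subst hm
    simp only [Finset.univ_eq_empty, Finset.prod_empty, mul_one, mul_zero, pow_zero]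
    have h2 : (0 : ℝ) ≤ N := Nat.cast_nonneg N
    nlinarith
  · set I := Fintype.piFinset (fun i => (P i).sigma fun q => Ico 1 q) with hI
    have hmem : ∀ t ∈ I, (∀ i, (t i).1.Prime ∧ ((t i).1 : ℝ) ≤ Q ∧ 1 ≤ (t i).2 ∧
        (t i).2 < (t i).1 ∧ (t i).1 ∈ P i) := by
      intro t ht i
      rw [hI, Fintype.mem_piFinset] at ht
      obtain ⟨h1, h2⟩ := Finset.mem_sigma.1 (ht i)
      obtain ⟨h3, h4⟩ := Finset.mem_Ico.1 h2
      exact ⟨(hP i _ h1).1, (hP i _ h1).2, h3, h4, h1⟩
    have hdne : ∀ t ∈ I, ∀ t' ∈ I, ∀ i j, i ≠ j → (t i).1 ≠ (t' j).1 := by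
      intro t ht t' ht' i j hij h
      have h1 := (hmem t ht i).2.2.2.2
      have h2 := (hmem t' ht' j).2.2.2.2
      rw [← h] at h2
      exact (Finset.disjoint_left.1 (hdis i j hij)) h1 h2
    set D : (Fin m → (Σ _ : ℕ, ℕ)) → ℕ := fun t => ∏ i, (t i).1 with hD
    have hDpos : ∀ t ∈ I, (0 : ℝ) < D t := by
      intro t ht
      rw [hD]
      push_cast
      exact Finset.prod_pos fun i _ => by exact_mod_cast (hmem t ht i).1.pos
    have hDle : ∀ t ∈ I, (D t : ℝ) ≤ Q ^ m := by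
      intro t ht
      rw [hD]
      push_cast
      calc ∏ i, ((t i).1 : ℝ) ≤ ∏ _i : Fin m, Q :=
            Finset.prod_le_prod (fun i _ => Nat.cast_nonneg _) (fun i _ => (hmem t ht i).2.1)
        _ = Q ^ m := by simp
    set r : (Fin m → (Σ _ : ℕ, ℕ)) → ℝ := fun t => ((Int.fract (rho t) : ℚ) : ℝ) with hr
    set δ : ℝ := (Q ^ (2 * m))⁻¹ with hδ
    have hQm : (1 : ℝ) ≤ Q ^ m := one_le_pow₀ hQ
    have hQ2m : Q ^ (2 * m) = Q ^ m * Q ^ m := by rw [two_mul, pow_add]
    have hδ0 : 0 < δ := by positivity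
    -- integrality
    have hint : ∀ t ∈ I, ∃ z : ℤ, (D t : ℚ) * Int.fract (rho t) = z := by
      intro t ht
      obtain ⟨z, hz⟩ := rho_den t (fun i => (hmem t ht i).1.ne_zero)
      refine ⟨z - D t * ⌊rho t⌋, ?_⟩
      rw [Int.fract, mul_sub, hz]
      push_cast
      ring
    have hδD : ∀ t ∈ I, δ / 2 ≤ 1 / (D t : ℝ) := by
      intro t ht
      rw [hδ, hQ2m]
      have h1 := hDpos t ht
      have h2 := hDle t ht
      rw [inv_eq_one_div, div_div, one_div_le_one_div (by positivity) h1]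
      nlinarith
    have hrange : ∀ t ∈ I, δ / 2 ≤ r t ∧ r t ≤ 1 - δ / 2 := by
      intro t ht
      obtain ⟨z, hz⟩ := hint t ht
      have h1 := hDpos t ht
      have hDq : (0 : ℚ) < D t := by exact_mod_cast h1
      have h2 : Int.fract (rho t) ≠ 0 := by
        intro h0
        have h3 := rho_not_int t hm (fun i => (hmem t ht i).1)
          (fun i => ⟨(hmem t ht i).2.2.1, (hmem t ht i).2.2.2.1⟩)
          (fun i j hij => hdne t ht t ht i j hij) ⌊rho t⌋
        apply h3
        rw [Int.fract] at h0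
        linarith
      have h3 : 0 < Int.fract (rho t) := lt_of_le_of_ne (Int.fract_nonneg _) h2.symm
      have h4 : Int.fract (rho t) < 1 := Int.fract_lt_one _
      have h5 : (0 : ℚ) < z := by rw [← hz]; positivity
      have h6 : (z : ℚ) < D t := by
        rw [← hz]
        nlinarith
      have h7 : (1 : ℤ) ≤ z := by
        have : (0 : ℤ) < z := by exact_mod_cast h5
        omega
      have h8 : z + 1 ≤ (D t : ℤ) := by
        have : z < (D t : ℤ) := by exact_mod_cast h6
        omega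
      have h9 : (D t : ℝ) * r t = z := by
        change (D t : ℝ) * ((Int.fract (rho t) : ℚ) : ℝ) = z
        exact_mod_cast hz
      have h10 : (1 : ℝ) ≤ z := by exact_mod_cast h7
      have h11 : (z : ℝ) + 1 ≤ D t := by exact_mod_cast h8
      have h12 : r t = z / D t := by
        rw [← h9]; field_simp
      have h13 := hδD t ht
      constructor
      · refine h13.trans ?_
        rw [h12]
        exact div_le_div_of_nonneg_right h10 h1.le
      · have h14 : (z : ℝ) / D t ≤ 1 - 1 / D t := by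
          rw [div_le_iff₀ h1, sub_mul, one_div, inv_mul_cancel₀ h1.ne']
          linarith
        rw [h12]
        linarith
    have hsp : ∀ t ∈ I, ∀ t' ∈ I, t ≠ t' → δ ≤ |r t - r t'| := by
      intro t ht t' ht' hne
      obtain ⟨z, hz⟩ := hint t ht
      obtain ⟨z', hz'⟩ := hint t' ht'
      have h1 := hDpos t ht
      have h1' := hDpos t' ht'
      have h2 : (D t : ℝ) * r t = z := by
        change (D t : ℝ) * ((Int.fract (rho t) : ℚ) : ℝ) = z
        exact_mod_cast hz
      have h2' : (D t' : ℝ) * r t' = z' := by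
        change (D t' : ℝ) * ((Int.fract (rho t') : ℚ) : ℝ) = z'
        exact_mod_cast hz'
      have h3 : ((D t : ℝ) * D t') * (r t - r t') = ((z * D t' - z' * D t : ℤ) : ℝ) := by
        push_cast
        rw [← h2, ← h2']
        ring
      have h4 : (z * D t' - z' * D t : ℤ) ≠ 0 := by
        intro h0
        rw [h0, Int.cast_zero] at h3
        have h5 : r t - r t' = 0 := by
          rcases mul_eq_zero.1 h3 with h6 | h6
          · exact absurd h6 (by positivity)
          · exact h6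
        have h6 : Int.fract (rho t) = Int.fract (rho t') := by
          have h7 : r t = r t' := by linarith
          change ((Int.fract (rho t) : ℚ) : ℝ) = ((Int.fract (rho t') : ℚ) : ℝ) at h7
          exact_mod_cast h7
        apply hne
        apply rho_inj t t' (fun i => (hmem t ht i).1) (fun i => (hmem t' ht' i).1)
          (fun i => ⟨(hmem t ht i).2.2.1, (hmem t ht i).2.2.2.1⟩)
          (fun i => ⟨(hmem t' ht' i).2.2.1, (hmem t' ht' i).2.2.2.1⟩)
          (fun i j hij => hdne t ht t ht i j hij) (fun i j hij => hdne t ht t' ht' i j hij)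
          (⌊rho t⌋ - ⌊rho t'⌋)
        rw [Int.fract, Int.fract] at h6
        push_cast
        linarith
      have h5 : (1 : ℝ) ≤ |((z * D t' - z' * D t : ℤ) : ℝ)| := by
        rw [← Int.cast_abs]
        exact_mod_cast Int.one_le_abs h4
      rw [← h3, abs_mul, abs_of_pos (mul_pos h1 h1')] at h5
      have h6 : (D t : ℝ) * D t' ≤ Q ^ (2 * m) := by
        rw [hQ2m]
        exact mul_le_mul (hDle t ht) (hDle t' ht') h1'.le (by positivity)
      rw [hδ, inv_eq_one_div, div_le_iff₀ (by positivity)]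
      refine h5.trans ?_
      rw [mul_comm]
      exact mul_le_mul_of_nonneg_left h6 (abs_nonneg _)
    have hL := additive_large_sieve (fun n => if n ∈ S then 1 else 0) N hδ0 I r hrange hsp
    simp only [trig_ind S N hS] at hL
    have hR : ∑ n ∈ range N, ‖(if n ∈ S then (1 : ℂ) else 0)‖ ^ 2 = S.card := by
      have h1 : ∀ n, ‖(if n ∈ S then (1 : ℂ) else 0)‖ ^ 2 = if n ∈ S then (1 : ℝ) else 0 := by
        intro n
        split_ifs <;> simp
      simp only [h1]
      rw [← Finset.sum_filter, Finset.sum_const, nsmul_eq_mul, mul_one]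
      congr 2
      ext n
      simp only [mem_filter]
      exact ⟨fun h => h.2, fun h => ⟨hS h, h⟩⟩
    rw [hR] at hL
    have hlow := lower S Z m P (fun i q hq => ⟨(hP i q hq).1.pos, hZ i q hq⟩) 0
    have hTS : ∀ t, TS S (0 + ∑ i, ((t i).2 : ℝ) / (t i).1) = TS S (r t) := by
      intro t
      have h1 : (0 + ∑ i, ((t i).2 : ℝ) / (t i).1 : ℝ) = r t + (⌊rho t⌋ : ℤ) := by
        have h2 : (rho t : ℝ) = ((Int.fract (rho t) : ℚ) : ℝ) + ((⌊rho t⌋ : ℤ) : ℝ) := by
          have h3 := Int.fract_add_floor (rho t)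
          conv_lhs => rw [← h3]
          push_cast
          ring
        rw [hr]
        dsimp only
        rw [← h2]
        unfold rho
        push_cast
        ring
      rw [h1, TS_int]
    simp only [hTS] at hlow
    have h0 : TS S 0 = S.card := by
      unfold TS
      simp
    rw [h0, Complex.norm_natCast] at hlow
    have h1 := hlow.trans hL
    have hδi : δ⁻¹ = Q ^ (2 * m) := by rw [hδ, inv_inv]
    rw [hδi] at h1
    have hN0 : (0 : ℝ) ≤ N := Nat.cast_nonneg N
    have hQ2 : (0 : ℝ) ≤ Q ^ (2 * m) := by positivity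
    rcases Nat.eq_zero_or_pos S.card with h2 | h2
    · rw [h2]
      simp only [Nat.cast_zero, zero_mul]
      positivity
    · have h3 : (0 : ℝ) < S.card := by exact_mod_cast h2
      have h4 : (S.card : ℝ) * (S.card * ∏ i, ∑ q ∈ P i, ((Z q).card : ℝ) / q) ≤
          S.card * (Q ^ (2 * m) + 4 * Real.pi * N) := by nlinarith
      have h5 := le_of_mul_le_mul_left h4 h3
      refine h5.trans ?_
      nlinarith

end Pool.Agent.H19.NK.LV
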