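import Pool.Agent.H73.NK.Targets

/-!
# Prime powers
-/

set_option autoImplicit false

namespace Pool.Agent.H19.NK.PP

open Finset ArithmeticFunction Pool.Agent.H73.NK
open Pool.Agent.H30.BV (NX wx)
open Pool.Agent.H27.LS (hat)

theorem pp : T_PP := by
  refine ⟨12, by norm_num, fun X hX => ?_⟩
  have hX0 : (0 : ℝ) < X := by linarith
  have hN1 : (1 : ℝ) ≤ (NX X : ℝ) := by
    have h1 : 3 * X ≤ (NX X : ℝ) := Nat.le_ceil _
    linarith
  have hN4 : (NX X : ℝ) ≤ 4 * X := by
    have h1 : (NX X : ℝ) < 3 * X + 1 := Nat.ceil_lt_add_one (by linarith)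
    linarith
  have h0 : ∑ n ∈ (Icc 1 (NX X)).filter (fun n => ¬ n.Prime), wx X n ≤
      Chebyshev.psi (NX X : ℝ) - Chebyshev.theta (NX X : ℝ) := by
    rw [Chebyshev.psi_sub_theta_eq_sum_not_prime, Nat.floor_natCast]
    have hI : (Icc 1 (NX X)) = Ioc 0 (NX X) := by
      ext n
      simp only [mem_Icc, mem_Ioc]
      omega
    rw [hI]
    apply Finset.sum_le_sum
    intro n _
    have h1 : hat (Real.log (n / X)) ≤ 1 := by
      unfold hat
      exact max_le (by norm_num) (by linarith [abs_nonneg (Real.log (n / X))])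
    have h2 : (0 : ℝ) ≤ Λ n := vonMangoldt_nonneg
    unfold wx
    nlinarith
  have h1 := Chebyshev.psi_sub_theta_le hN1
  have hs : √(NX X : ℝ) ≤ 2 * √X := by
    have h2 : √(NX X : ℝ) ≤ √(4 * X) := Real.sqrt_le_sqrt hN4
    have h3 : √(4 * X) = 2 * √X := by
      rw [Real.sqrt_mul (by norm_num)]
      congr 1
      rw [show (4 : ℝ) = 2 ^ 2 by norm_num, Real.sqrt_sq (by norm_num)]
    linarith
  have hl1 : 1 ≤ Real.log X := by
    rw [← Real.log_exp 1]
    apply Real.log_le_log (Real.exp_pos 1)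
    linarith [Real.exp_one_lt_d9]
  have hl : Real.log (NX X : ℝ) ≤ 3 * Real.log X := by
    have h2 : Real.log (NX X : ℝ) ≤ Real.log (X ^ 3) := by
      apply Real.log_le_log (by linarith)
      nlinarith [mul_pos hX0 hX0]
    have h3 : Real.log (X ^ 3) = 3 * Real.log X := by
      rw [Real.log_pow]
      norm_num
    linarith
  have hl0 : 0 ≤ Real.log (NX X : ℝ) := Real.log_nonneg hN1
  have hs0 : 0 ≤ √X := Real.sqrt_nonneg X
  calc ∑ n ∈ (Icc 1 (NX X)).filter (fun n => ¬ n.Prime), wx X n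
      ≤ 2 * √(NX X : ℝ) * Real.log (NX X : ℝ) := h0.trans h1
    _ ≤ 2 * (2 * √X) * (3 * Real.log X) := by gcongr
    _ = 12 * √X * Real.log X := by ring
    _ ≤ 12 * √X * Real.log X ^ 2 := by
      apply mul_le_mul_of_nonneg_left _ (by positivity)
      nlinarith

end Pool.Agent.H19.NK.PP
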