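import Pool.Agent.H73.NK.Targets

/-!
# The weighted number of tuples
-/

set_option autoImplicit false

namespace Pool.Agent.H19.NK.WS

open Finset ArithmeticFunction Pool.Agent.H73.NK
open Pool.Agent.H30.BV (SC NX wx WX T_CL T_WM)

theorem one (hCL : T_CL) (X : ℝ) (D : ℕ) (c : ℝ) (hX : 3 ≤ X) (hD : 1 ≤ D) (hDX : (D : ℝ) ≤ X)
    (hc : c * X ≤ WX X) (hc0 : 0 ≤ c * X) :
    c * X * (1 / D) - (SC X D + 8 * Real.log X ^ 2) / D.totient ≤
      ∑ n ∈ (Icc 1 (NX X)).filter (fun n : ℕ => D ∣ n + 1), wx X n := by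
  have h1 := hCL X D (-1) hX hD hDX (IsUnit.neg isUnit_one)
  have hf : (Icc 1 (NX X)).filter (fun n : ℕ => (n : ZMod D) = -1) =
      (Icc 1 (NX X)).filter (fun n : ℕ => D ∣ n + 1) := by
    apply Finset.filter_congr
    intro n _
    rw [← ZMod.natCast_eq_zero_iff]
    push_cast
    constructor
    · intro h; rw [h]; ring
    · intro h; linear_combination h
  rw [hf] at h1
  have h2 := (abs_le.1 h1).1
  have ht : (0 : ℝ) < D.totient := by exact_mod_cast Nat.totient_pos.2 hD
  have htD : (D.totient : ℝ) ≤ D := by exact_mod_cast Nat.totient_le D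
  have h3 : c * X * (1 / D) ≤ WX X / D.totient := by
    have h4 : c * X * (1 / D) = c * X / D := by ring
    rw [h4]
    apply div_le_div₀ (hc0.trans hc) hc ht htD
  linarith

theorem ws (hCL : T_CL) (hWM : T_WM) : T_WS := by
  obtain ⟨c, X₀, hc, hW⟩ := hWM
  refine ⟨c, max 3 X₀, hc, fun s z l X h hX hT => ?_⟩
  have hX3 : 3 ≤ X := (le_max_left _ _).trans hX
  have hXX : X₀ ≤ X := (le_max_right _ _).trans hX
  have hWX := (hW X hXX).1
  have h1 : ∑ n ∈ Icc 1 (NX X), wx X n * om z l h n =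
      ∑ t ∈ TT z l h, ∑ n ∈ (Icc 1 (NX X)).filter (fun n : ℕ => DT t ∣ n + 1), wx X n := by
    have h2 : ∀ n ∈ Icc 1 (NX X), wx X n * om z l h n =
        ∑ t ∈ TT z l h, if DT t ∣ n + 1 then wx X n else 0 := by
      intro n _
      unfold om
      rw [← Finset.sum_filter, Finset.sum_const, nsmul_eq_mul, mul_comm]
    rw [Finset.sum_congr rfl h2, Finset.sum_comm]
    apply Finset.sum_congr rfl
    intro t _
    rw [Finset.sum_filter]
  rw [h1, Finset.mul_sum, ← Finset.sum_sub_distrib]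
  apply Finset.sum_le_sum
  intro t ht
  have h3 := hT t ht
  exact one hCL X (DT t) c hX3 h3.1 h3.2 hWX (by positivity)

end Pool.Agent.H19.NK.WS
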